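import Mathlib

/-!
# CV/HTC, part A: the height of a polynomial and the heights of its roots
-/

set_option autoImplicit false

namespace Pool.Agent.N265.CV

open Module Polynomial Height

section general

variable {K : Type*} [Field K] [AdmissibleAbsValues K] {ι ι' : Type*} [Finite ι] [Finite ι']

open AdmissibleAbsValues Multiset in
theorem mulHeight_le_of {x : ι → K} {y : ι' → K} (hx : x ≠ 0) (hy : y ≠ 0) (C : ℕ)
    (h1 : ∀ v : AbsoluteValue K ℝ, ⨆ i, v (x i) ≤ C * ⨆ i, v (y i))
    (h2 : ∀ v : AbsoluteValue K ℝ, IsNonarchimedean v → ⨆ i, v (x i) ≤ ⨆ i, v (y i)) :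
    mulHeight x ≤ C ^ totalWeight K * mulHeight y := by
  rw [mulHeight_eq hx, mulHeight_eq hy, ← mul_assoc]
  gcongr
  · exact finprod_nonneg fun v ↦ Real.iSup_nonneg_of_nonnegHomClass v.val _
  · refine mul_nonneg (by positivity) ?_
    exact prod_map_nonneg fun v _ ↦ Real.iSup_nonneg_of_nonnegHomClass v _
  · rw [← prod_replicate, totalWeight, ← map_const', ← prod_map_mul]
    refine prod_map_le_prod_map₀ _ _ (fun v _ ↦ Real.iSup_nonneg_of_nonnegHomClass v _) fun v _ ↦ ?_
    exact h1 v
  · refine finprod_le_finprod (by fun_prop)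
      (fun v ↦ Real.iSup_nonneg_of_nonnegHomClass v.val _) (by fun_prop) fun v ↦ ?_
    exact h2 _ (isNonarchimedean _ v.prop)

theorem logHeight_le_of {x : ι → K} {y : ι' → K} (hx : x ≠ 0) (hy : y ≠ 0) (C : ℕ) (hC : 1 ≤ C)
    (h1 : ∀ v : AbsoluteValue K ℝ, ⨆ i, v (x i) ≤ C * ⨆ i, v (y i))
    (h2 : ∀ v : AbsoluteValue K ℝ, IsNonarchimedean v → ⨆ i, v (x i) ≤ ⨆ i, v (y i)) :
    logHeight x ≤ totalWeight K * Real.log C + logHeight y := by
  rw [logHeight_eq_log_mulHeight, logHeight_eq_log_mulHeight, ← Real.log_pow,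
    ← Real.log_mul (by positivity) (mulHeight_ne_zero y)]
  exact Real.log_le_log (mulHeight_pos x) (mulHeight_le_of hx hy C h1 h2)

end general

/-! ### One root -/

section root

variable {F : Type*} [Field F]

theorem coeff_root (y : F) (R : F[X]) : ((X - C y) * R).coeff 0 = - (y * R.coeff 0) ∧
    ∀ k, ((X - C y) * R).coeff (k + 1) = R.coeff k - y * R.coeff (k + 1) := by
  refine ⟨?_, fun k => ?_⟩
  · simp [sub_mul, coeff_sub]
  · simp [sub_mul, coeff_sub, coeff_X_mul]

/-- archimedean or not -/
theorem root_arch (v : AbsoluteValue F ℝ) (y : F) (R : F[X]) (D : ℕ) (M : ℝ)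
    (hM : ∀ k, v (((X - C y) * R).coeff k) ≤ M) (hR : ∀ k, D ≤ k → R.coeff k = 0) (k : ℕ) :
    max (v y) 1 * v (R.coeff k) ≤ (D + 1) * M := by
  obtain ⟨h0, h1⟩ := coeff_root y R
  have hM0 : 0 ≤ M := (v.nonneg _).trans (hM 0)
  rcases le_total (v y) 1 with hy | hy
  · rw [max_eq_right hy, one_mul]
    have h : ∀ j : ℕ, ∀ k, D ≤ k + j → v (R.coeff k) ≤ j * M := by
      intro j
      induction j with
      | zero =>
        intro k hk
        rw [hR k (by omega)]
        simp
      | succ j ih =>
        intro k hk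
        have h2 : R.coeff k = ((X - C y) * R).coeff (k + 1) + y * R.coeff (k + 1) := by
          rw [h1 k]; ring
        rw [h2]
        refine (v.add_le _ _).trans ?_
        rw [v.map_mul]
        have h3 := ih (k + 1) (by omega)
        have h4 := hM (k + 1)
        have h5 : v y * v (R.coeff (k + 1)) ≤ 1 * v (R.coeff (k + 1)) :=
          mul_le_mul_of_nonneg_right hy (v.nonneg _)
        push_cast
        linarith
    have h2 := h D k (by omega)
    linarith
  · rw [max_eq_left hy]
    have h : ∀ k : ℕ, v y * v (R.coeff k) ≤ (k + 1) * M := by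
      intro k
      induction k with
      | zero =>
        have h2 := hM 0
        rw [h0, v.map_neg, v.map_mul] at h2
        simpa using h2
      | succ k ih =>
        have h2 : y * R.coeff (k + 1) = R.coeff k - ((X - C y) * R).coeff (k + 1) := by
          rw [h1 k]; ring
        rw [← v.map_mul, h2]
        refine (v.sub_le_add _ _).trans ?_
        have h4 := hM (k + 1)
        have h5 : 1 * v (R.coeff k) ≤ v y * v (R.coeff k) :=
          mul_le_mul_of_nonneg_right hy (v.nonneg _)
        push_cast
        linarith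
    rcases lt_or_ge k D with hk | hk
    · refine (h k).trans ?_
      have : (k : ℝ) ≤ D := by exact_mod_cast hk.le
      exact mul_le_mul_of_nonneg_right (by linarith) hM0
    · rw [hR k hk]
      simp
      positivity

theorem root_non (v : AbsoluteValue F ℝ) (hv : IsNonarchimedean v) (y : F) (R : F[X]) (D : ℕ)
    (M : ℝ) (hM : ∀ k, v (((X - C y) * R).coeff k) ≤ M) (hR : ∀ k, D ≤ k → R.coeff k = 0)
    (k : ℕ) : max (v y) 1 * v (R.coeff k) ≤ M := by
  obtain ⟨h0, h1⟩ := coeff_root y R
  have hM0 : 0 ≤ M := (v.nonneg _).trans (hM 0)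
  rcases le_total (v y) 1 with hy | hy
  · rw [max_eq_right hy, one_mul]
    have h : ∀ j : ℕ, ∀ k, D ≤ k + j → v (R.coeff k) ≤ M := by
      intro j
      induction j with
      | zero =>
        intro k hk
        rw [hR k (by omega)]
        simpa using hM0
      | succ j ih =>
        intro k hk
        have h2 : R.coeff k = ((X - C y) * R).coeff (k + 1) + y * R.coeff (k + 1) := by
          rw [h1 k]; ring
        rw [h2]
        refine (hv _ _).trans (max_le (hM _) ?_)
        rw [v.map_mul]
        have h3 := ih (k + 1) (by omega)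
        have h5 : v y * v (R.coeff (k + 1)) ≤ 1 * v (R.coeff (k + 1)) :=
          mul_le_mul_of_nonneg_right hy (v.nonneg _)
        linarith
    exact h D k (by omega)
  · rw [max_eq_left hy]
    induction k with
    | zero =>
      have h2 := hM 0
      rw [h0, v.map_neg, v.map_mul] at h2
      exact h2
    | succ k ih =>
      have h2 : y * R.coeff (k + 1) = R.coeff k + - ((X - C y) * R).coeff (k + 1) := by
        rw [h1 k]; ring
      rw [← v.map_mul, h2]
      refine (hv _ _).trans (max_le ?_ ?_)
      · have h5 : 1 * v (R.coeff k) ≤ v y * v (R.coeff k) :=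
          mul_le_mul_of_nonneg_right hy (v.nonneg _)
        linarith
      · rw [v.map_neg]
        exact hM _

end root

/-! ### Heights -/

section height

variable {F : Type*} [Field F] [AdmissibleAbsValues F]

/-- the vector of the coefficients -/
def cf (D : ℕ) (P : F[X]) (k : Fin (D + 1)) : F := P.coeff k

omit [AdmissibleAbsValues F] in
theorem cf_ne_zero {D : ℕ} {P : F[X]} (hP : P ≠ 0) (hD : P.natDegree ≤ D) : cf D P ≠ 0 := by
  intro h
  apply hP
  rw [← leadingCoeff_eq_zero]
  exact congrFun h ⟨P.natDegree, by omega⟩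

theorem logHeight_root (D : ℕ) (y : F) (R : F[X]) (hR : R ≠ 0)
    (hD : ((X - C y) * R).natDegree ≤ D) :
    logHeight₁ y + logHeight (cf D R) ≤
      totalWeight F * Real.log ((D + 1 : ℕ) : ℝ) + logHeight (cf D ((X - C y) * R)) := by
  have hXy : (X - C y) ≠ 0 := X_sub_C_ne_zero y
  have hdeg : R.natDegree + 1 ≤ D := by
    rw [natDegree_mul hXy hR, natDegree_X_sub_C] at hD
    omega
  have hR' : ∀ k, D ≤ k → R.coeff k = 0 := fun k hk => coeff_eq_zero_of_natDegree_lt (by omega)
  have hQ0 : (X - C y) * R ≠ 0 := mul_ne_zero hXy hR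
  have hx0 : (![y, 1] : Fin 2 → F) ≠ 0 := by
    intro h
    have := congrFun h 1
    simp at this
  have hsup : ∀ v : AbsoluteValue F ℝ, ∀ k, v (((X - C y) * R).coeff k) ≤
      ⨆ i, v (cf D ((X - C y) * R) i) := by
    intro v k
    rcases le_or_gt k D with hk | hk
    · exact Finite.le_ciSup_of_le (⟨k, by omega⟩ : Fin (D + 1)) le_rfl
    · rw [coeff_eq_zero_of_natDegree_lt (by omega), v.map_zero]
      exact Real.iSup_nonneg fun i => v.nonneg _
  have hmx : ∀ v : AbsoluteValue F ℝ, ∀ i : Fin 2, v ((![y, 1] : Fin 2 → F) i) ≤ max (v y) 1 := by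
    intro v i
    fin_cases i
    · exact le_max_left _ _
    · simp
  rw [logHeight₁_eq_logHeight, ← logHeight_fun_mul_eq hx0 (cf_ne_zero hR (by omega))]
  refine logHeight_le_of ?_ (cf_ne_zero hQ0 hD) (D + 1) (by omega) ?_ ?_
  · intro h
    apply cf_ne_zero (D := D) hR (by omega)
    funext k
    have := congrFun h (1, k)
    simpa using this
  · intro v
    refine ciSup_le fun a => ?_
    rw [v.map_mul]
    refine (mul_le_mul_of_nonneg_right (hmx v a.1) (v.nonneg _)).trans ?_
    have := root_arch v y R D _ (hsup v) hR' a.2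
    push_cast
    exact this
  · intro v hv
    refine ciSup_le fun a => ?_
    rw [v.map_mul]
    refine (mul_le_mul_of_nonneg_right (hmx v a.1) (v.nonneg _)).trans ?_
    exact root_non v hv y R D _ (hsup v) hR' a.2

theorem logHeight_roots (D : ℕ) (a : F) (ha : a ≠ 0) (s : Multiset F) (hs : Multiset.card s ≤ D) :
    (s.map fun y => logHeight₁ y).sum ≤
      Multiset.card s * (totalWeight F * Real.log ((D + 1 : ℕ) : ℝ)) +
        logHeight (cf D (C a * (s.map fun y => X - C y).prod)) := by
  induction s using Multiset.induction_on with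
  | empty =>
    simp only [Multiset.map_zero, Multiset.sum_zero, Multiset.card_zero, Nat.cast_zero, zero_mul,
      zero_add]
    exact logHeight_nonneg _
  | cons y s ih =>
    rw [Multiset.card_cons] at hs
    have hp : (s.map fun y => X - C y).prod ≠ 0 := by
      apply Multiset.prod_ne_zero
      intro h
      obtain ⟨z, -, hz⟩ := Multiset.mem_map.1 h
      exact X_sub_C_ne_zero z hz
    have hR : C a * (s.map fun y => X - C y).prod ≠ 0 := mul_ne_zero (C_ne_zero.2 ha) hp
    have hE : C a * ((y ::ₘ s).map fun y => X - C y).prod =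
        (X - C y) * (C a * (s.map fun y => X - C y).prod) := by
      rw [Multiset.map_cons, Multiset.prod_cons]
      ring
    have hdeg : ((X - C y) * (C a * (s.map fun y => X - C y).prod)).natDegree ≤ D := by
      rw [natDegree_mul (X_sub_C_ne_zero y) hR, natDegree_X_sub_C,
        natDegree_mul (C_ne_zero.2 ha) hp, natDegree_C, natDegree_multiset_prod_X_sub_C_eq_card]
      omega
    have h1 := logHeight_root D y _ hR hdeg
    have h2 := ih (by omega)
    rw [hE, Multiset.map_cons, Multiset.sum_cons, Multiset.card_cons]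
    push_cast at h1 h2 ⊢
    linarith

end height

end Pool.Agent.N265.CV
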