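import Mathlib
import Pool.Agent.N265.CV.HtcA
import Pool.Agent.Helper259.HtExt

/-!
# CV/HTC, part B: a field generated by a root
-/

set_option autoImplicit false

namespace Pool.Agent.N265.CV

open Module Polynomial Height NumberField

theorem ht1_ext (K L : Type) [Field K] [NumberField K] [Field L] [NumberField L] [Algebra K L]
    (x : K) : logHeight₁ (algebraMap K L x) = finrank K L * logHeight₁ x := by
  rw [logHeight₁_eq_logHeight, logHeight₁_eq_logHeight]
  have h := Pool.Agent.Helper259.HtExt.logHeight_ext (L := L) (![x, 1] : Fin 2 → K)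
  rw [← h]
  congr 1
  funext i
  fin_cases i <;> simp

theorem ht_field {K M : Type} [Field K] [NumberField K] [Field M] [NumberField M] [Algebra K M]
    (x : M) (f : K[X]) (hf : Irreducible f) (hx : aeval x f = 0) (a : K) (ha : a ≠ 0) (j : ℕ)
    (hj : j * f.natDegree = finrank K M) (hm : f.Monic) :
    logHeight₁ x ≤ logHeight (cf (finrank K M) (C a * f ^ j)) +
      finrank K M * (totalWeight K * Real.log ((finrank K M + 1 : ℕ) : ℝ)) := by
  have : Fact (Irreducible f) := ⟨hf⟩
  obtain ⟨D, hD⟩ : ∃ D, D = finrank K M := ⟨_, rfl⟩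
  -- the field generated by a root
  have hE : ∃ (E : Type) (_ : Field E) (_ : NumberField E) (_ : Algebra K E) (r : E),
      aeval r f = 0 ∧ finrank K E = f.natDegree ∧
      ∀ (N : Type) [Field N] [Algebra K N] (y : N), aeval y f = 0 →
        ∃ g : E →ₐ[K] N, g r = y := by
    have : FiniteDimensional K (AdjoinRoot f) :=
      (AdjoinRoot.powerBasis hf.ne_zero).finite
    have : CharZero (AdjoinRoot f) := charZero_of_injective_algebraMap
      (algebraMap K (AdjoinRoot f)).injective
    refine ⟨AdjoinRoot f, inferInstance, NumberField.of_module_finite K _, inferInstance,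
      AdjoinRoot.root f, ?_, ?_, ?_⟩
    · simp [aeval_def, AdjoinRoot.algebraMap_eq]
    · rw [(AdjoinRoot.powerBasis hf.ne_zero).finrank, AdjoinRoot.powerBasis_dim]
    · intro N _ _ y hy
      refine ⟨AdjoinRoot.liftAlgHom f (Algebra.ofId K N) y ?_, ?_⟩
      · simpa [aeval_def] using hy
      · simp
  obtain ⟨E, _, _, _, r, hr, hfin, hlift⟩ := hE
  have hfd : 0 < f.natDegree := by
    rw [← hfin]
    exact finrank_pos
  have htw : ∀ (N : Type) [Field N] [NumberField N] [Algebra K N] (y : N), aeval y f = 0 →
      f.natDegree * logHeight₁ y = finrank K N * logHeight₁ r := by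
    intro N _ _ _ y hy
    obtain ⟨g, hg⟩ := hlift N y hy
    let _ : Algebra E N := g.toRingHom.toAlgebra
    have : IsScalarTower K E N := IsScalarTower.of_algebraMap_eq fun z => (g.commutes z).symm
    have h1 : algebraMap E N r = y := hg
    rw [← h1, ht1_ext, ← finrank_mul_finrank K E N, hfin]
    push_cast
    ring
  -- a splitting field
  have hO : ∃ (Om : Type) (_ : Field Om) (_ : NumberField Om) (_ : Algebra K Om),
      (f.map (algebraMap K Om)).Splits := by
    have : CharZero (SplittingField f) := charZero_of_injective_algebraMap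
      (algebraMap K (SplittingField f)).injective
    exact ⟨SplittingField f, inferInstance, NumberField.of_module_finite K _, inferInstance,
      SplittingField.splits f⟩
  obtain ⟨Om, _, _, _, hs⟩ := hO
  obtain ⟨s, hs'⟩ : ∃ s, s = (f.map (algebraMap K Om)).roots := ⟨_, rfl⟩
  have hcard : Multiset.card s = f.natDegree := by
    rw [hs', ← hs.natDegree_eq_card_roots, natDegree_map]
  have hprod : f.map (algebraMap K Om) = (s.map fun y => X - C y).prod := by
    rw [hs']
    have := hs.eq_prod_roots
    rwa [(hm.map _).leadingCoeff, C_1, one_mul] at this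
  have hroot : ∀ y ∈ s, aeval y f = 0 := by
    intro y hy
    rw [hs', mem_roots', IsRoot.def, eval_map_algebraMap] at hy
    exact hy.2
  -- heights
  have h1 := logHeight_roots (F := Om) D (algebraMap K Om a)
    (by rw [Ne, FaithfulSMul.algebraMap_eq_zero_iff]; exact ha) (j • s)
    (by rw [Multiset.card_nsmul, hcard, hj, hD])
  have h2 : C (algebraMap K Om a) * ((j • s).map fun y => X - C y).prod =
      (C a * f ^ j).map (algebraMap K Om) := by
    rw [Polynomial.map_mul, Polynomial.map_pow, map_C, hprod, Multiset.map_nsmul,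
      Multiset.prod_nsmul]
  have h3 : logHeight (cf D ((C a * f ^ j).map (algebraMap K Om))) =
      finrank K Om * logHeight (cf D (C a * f ^ j)) := by
    rw [← Pool.Agent.Helper259.HtExt.logHeight_ext]
    congr 1
    funext k
    simp only [cf, coeff_map]
  have h4 : f.natDegree * ((j • s).map fun y => logHeight₁ y).sum =
      (j * f.natDegree) * (finrank K Om * logHeight₁ r) := by
    have h5 : (s.map fun y => (f.natDegree : ℝ) * logHeight₁ y).sum =
        f.natDegree * (finrank K Om * logHeight₁ r) := by
      rw [Multiset.map_congr rfl fun y hy => htw Om y (hroot y hy), Multiset.map_const',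
        Multiset.sum_replicate, hcard, nsmul_eq_mul]
    rw [Multiset.map_nsmul, Multiset.sum_nsmul, nsmul_eq_mul]
    rw [Multiset.sum_map_mul_left] at h5
    have h6 : (f.natDegree : ℝ) * (j * (s.map fun y => logHeight₁ y).sum) =
      j * (f.natDegree * (s.map fun y => logHeight₁ y).sum) := by ring
    rw [h6, h5]
    ring
  have h5 := htw M x hx
  have h6 : (totalWeight Om : ℝ) = finrank K Om * totalWeight K := by
    rw [NumberField.totalWeight_eq_finrank, NumberField.totalWeight_eq_finrank,
      ← finrank_mul_finrank ℚ K Om]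
    push_cast
    ring
  rw [h2, h3, Multiset.card_nsmul, hcard, hj, ← hD, h6] at h1
  have hOm : (0 : ℝ) < finrank K Om := by
    have : 0 < finrank K Om := finrank_pos
    exact_mod_cast this
  have hfd' : (0 : ℝ) < f.natDegree := by exact_mod_cast hfd
  have hj' : (j : ℝ) * f.natDegree = D := by
    rw [hD]
    exact_mod_cast hj
  rw [← hD] at h5 ⊢
  rw [hj'] at h4
  -- `f.natDegree * sum = D * finrank K Om * ht r = finrank K Om * f.natDegree * ht x`
  have h7 : ((j • s).map fun y => logHeight₁ y).sum = finrank K Om * logHeight₁ x := by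
    have : (f.natDegree : ℝ) * ((j • s).map fun y => logHeight₁ y).sum =
        f.natDegree * (finrank K Om * logHeight₁ x) := by
      rw [h4]
      linear_combination (-(finrank K Om : ℝ)) * h5
    exact mul_left_cancel₀ hfd'.ne' this
  rw [h7] at h1
  have h8 : (finrank K Om : ℝ) * logHeight₁ x ≤ finrank K Om * (logHeight (cf D (C a * f ^ j)) +
      D * (totalWeight K * Real.log ((D + 1 : ℕ) : ℝ))) := by
    linarith
  exact le_of_mul_le_mul_left h8 hOm

end Pool.Agent.N265.CV
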