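import Mathlib
import Pool.Agent.N753.DR.Stm2
import Pool.Agent.N265.CV.HtcB

/-!
# CV/HTC: the height of the zero of a member
-/

set_option autoImplicit false

namespace Pool.Agent.N265.CV

open Module Polynomial Height NumberField Pool.Agent.N753.DR

/-- the norm of a member is a homogeneous form in its coefficients -/
theorem norm_mem {K A : Type} [Field K] [CommRing A] [Algebra K A] [Algebra K[X] A]
    [IsScalarTower K K[X] A] {N m : ℕ} (b : Basis (Fin N) K[X] A) (f : Fin m → A)
    (c : Fin m → K) :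
    Algebra.norm K[X] (mem f c) = ∑ I : Fin N → Fin m, C (∏ j, c (I j)) *
      Matrix.det (fun j => Algebra.leftMulMatrix b (f (I j)) j) := by
  classical
  have h1 : Algebra.leftMulMatrix b (mem f c) =
      fun j => ∑ i, (C (c i) : K[X]) • (Algebra.leftMulMatrix b (f i) j) := by
    unfold mem
    have h2 : ∀ i, c i • f i = (C (c i) : K[X]) • f i := by
      intro i
      rw [← algebraMap_smul K[X] (c i) (f i)]
      rfl
    simp only [h2, map_sum, map_smul]
    funext j
    ext k
    simp [Matrix.sum_apply]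
  rw [Algebra.norm_eq_matrix_det b, h1]
  have h3 := MultilinearMap.map_sum
    (Matrix.detRowAlternating (R := K[X]) (n := Fin N)).toMultilinearMap
    (fun (j : Fin N) (i : Fin m) => (C (c i) : K[X]) • (Algebra.leftMulMatrix b (f i) j))
  refine Eq.trans h3 (Finset.sum_congr rfl fun I _ => ?_)
  rw [MultilinearMap.map_smul_univ, smul_eq_mul, ← map_prod]
  rfl

theorem ht_norm {K A : Type} [Field K] [NumberField K] [CommRing A] [Algebra K A]
    [Algebra K[X] A] [IsScalarTower K K[X] A] {N m : ℕ} (b : Basis (Fin N) K[X] A)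
    (f : Fin m → A) : ∃ (D : ℕ) (C0 : ℝ), ∀ c : Fin m → K, c ≠ 0 →
      (Algebra.norm K[X] (mem f c)).natDegree ≤ D ∧
      logHeight (cf D (Algebra.norm K[X] (mem f c))) ≤ N * logHeight c + C0 := by
  classical
  obtain ⟨d, hd⟩ : ∃ d : (Fin N → Fin m) → K[X], d = fun I =>
    Matrix.det (fun j => Algebra.leftMulMatrix b (f (I j)) j) := ⟨_, rfl⟩
  obtain ⟨D, hD⟩ : ∃ D : ℕ, ∀ I, (d I).natDegree ≤ D :=
    ⟨Finset.univ.sup fun I => (d I).natDegree, fun I =>
      Finset.le_sup (f := fun I => (d I).natDegree) (Finset.mem_univ I)⟩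
  refine ⟨D, totalWeight K * Real.log (Nat.card (Fin N → Fin m)) +
    logHeight (fun a : Fin (D + 1) × (Fin N → Fin m) => (d a.2).coeff a.1), fun c hc => ?_⟩
  have h1 := norm_mem b f c
  refine ⟨?_, ?_⟩
  · rw [h1]
    refine natDegree_sum_le_of_forall_le _ _ fun I _ => ?_
    refine (natDegree_C_mul_le _ _).trans ?_
    rw [hd] at hD
    exact hD I
  · have h2 : cf D (Algebra.norm K[X] (mem f c)) = fun k => ∑ I : Fin N → Fin m,
        (fun a : Fin (D + 1) × (Fin N → Fin m) => (d a.2).coeff a.1) (k, I) *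
          (fun I : Fin N → Fin m => ∏ j, c (I j)) I := by
      funext k
      simp only [cf]
      rw [h1, finsetSum_coeff]
      refine Finset.sum_congr rfl fun I _ => ?_
      rw [coeff_C_mul, mul_comm, hd]
    have h3 : logHeight (fun I : Fin N → Fin m => ∏ j, c (I j)) = N * logHeight c := by
      rw [logHeight_fun_prod_eq (x := fun (_ : Fin N) => c) (fun _ => hc)]
      simp
    have h4 := logHeight_linearMap_apply_le
      (fun a : Fin (D + 1) × (Fin N → Fin m) => (d a.2).coeff a.1)
      (fun I : Fin N → Fin m => ∏ j, c (I j))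
    rw [h2]
    refine h4.trans ?_
    rw [h3]
    linarith

theorem t : StmHtC := by
  intro K A _ _ _ _ _ _ _ _ _ m f hf
  classical
  obtain ⟨b, -⟩ : ∃ b : Basis (Fin (finrank K[X] A)) K[X] A, b = b := by
    have : Module.IsTorsionFree K[X] A := by
      rw [Module.isTorsionFree_iff_faithfulSMul]
      infer_instance
    exact ⟨Module.finBasis K[X] A, rfl⟩
  obtain ⟨D, C0, hC0⟩ := ht_norm b f
  refine ⟨C0 + D * (totalWeight K * Real.log ((D + 1 : ℕ) : ℝ)), ?_⟩
  intro M _ _ _ φ c hφ hker hc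
  obtain ⟨hdeg, hht⟩ := hC0 c hc
  obtain ⟨P, hP⟩ : ∃ P, P = Algebra.norm K[X] (mem f c) := ⟨_, rfl⟩
  obtain ⟨x, hx⟩ : ∃ x, x = φ (algebraMap K[X] A X) := ⟨_, rfl⟩
  have hs0 : mem f c ≠ 0 := by
    intro h
    apply hc
    funext i
    exact Fintype.linearIndependent_iff.1 hf c h i
  -- the degree
  have hfin : finrank K M = P.natDegree := by
    rw [hP, ← finrank_quotient_span_eq_natDegree_norm b hs0, ← hker]
    exact (LinearEquiv.finrank_eq (Ideal.quotientKerAlgEquivOfSurjective hφ).toLinearEquiv).symm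
  -- the minimal polynomial
  obtain ⟨g, hg⟩ : ∃ g, g = minpoly K x := ⟨_, rfl⟩
  have hint : IsIntegral K x := Algebra.IsIntegral.isIntegral x
  have hgi : Irreducible g := hg ▸ minpoly.irreducible hint
  have hgm : g.Monic := hg ▸ minpoly.monic hint
  have hgx : aeval x g = 0 := hg ▸ minpoly.aeval K x
  have h1 : φ (algebraMap K[X] A g) = 0 := by
    rw [← hgx, hx]
    have h2 : (φ.comp (IsScalarTower.toAlgHom K K[X] A)) =
        aeval (φ (algebraMap K[X] A X)) := by
      apply Polynomial.algHom_ext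
      simp
    exact congrArg (fun h => h g) h2
  have h2 : algebraMap K[X] A g ∈ Ideal.span {mem f c} := by
    rw [← hker]
    exact h1
  obtain ⟨q, hq⟩ := Ideal.mem_span_singleton.1 h2
  have h3 : P ∣ g ^ Fintype.card (Fin (finrank K[X] A)) := by
    rw [← Algebra.norm_algebraMap_of_basis b g, hq, map_mul, ← hP]
    exact dvd_mul_right _ _
  obtain ⟨j, -, hj⟩ := (dvd_prime_pow hgi.prime _).1 h3
  obtain ⟨a, ha, hPa⟩ : ∃ a : K, a ≠ 0 ∧ P = C a * g ^ j := by
    obtain ⟨u, hu⟩ := hj.symm
    obtain ⟨a, ha, hau⟩ := Polynomial.isUnit_iff.1 u.isUnit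
    refine ⟨a, ha.ne_zero, ?_⟩
    rw [← hu, hau, mul_comm]
  have hjd : j * g.natDegree = finrank K M := by
    rw [hfin, hPa, natDegree_C_mul ha, natDegree_pow]
  have h4 := ht_field x g hgi hgx a ha j hjd hgm
  rw [← hPa] at h4
  have h5 : logHeight (cf (finrank K M) P) ≤ logHeight (cf D P) := by
    have hle : finrank K M + 1 ≤ D + 1 := by
      rw [hfin, hP]
      omega
    have h6 := logHeight_comp_le (Fin.castLE hle) (cf D P)
    exact h6
  rw [← hP] at hht
  rw [← hx]
  have h7 : (finrank K M : ℝ) * (totalWeight K * Real.log ((finrank K M + 1 : ℕ) : ℝ)) ≤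
      D * (totalWeight K * Real.log ((D + 1 : ℕ) : ℝ)) := by
    have hle : finrank K M ≤ D := by
      rw [hfin, hP]
      exact hdeg
    have h8 : (finrank K M : ℝ) ≤ D := by exact_mod_cast hle
    have h9 : Real.log ((finrank K M + 1 : ℕ) : ℝ) ≤ Real.log ((D + 1 : ℕ) : ℝ) := by
      apply Real.log_le_log
      · positivity
      · exact_mod_cast Nat.succ_le_succ hle
    have h10 : 0 ≤ Real.log ((finrank K M + 1 : ℕ) : ℝ) :=
      Real.log_nonneg (by push_cast; linarith [Nat.cast_nonneg (α := ℝ) (finrank K M)])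
    have h11 : (0 : ℝ) ≤ totalWeight K := Nat.cast_nonneg _
    exact mul_le_mul h8 (mul_le_mul_of_nonneg_left h9 h11) (mul_nonneg h11 h10)
      (Nat.cast_nonneg _)
  linarith

end Pool.Agent.N265.CV
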